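import Pool.Agent.H898R3.Mix
import Pool.Agent.H923R2.FZ.All
import Pool.Agent.H308R2.CF.All
import Pool.Agent.H308R2.CF.TGTR
import Pool.Agent.H308R2.CF.TGMOM
import Pool.Agent.H308R2.CF.TGST
import Pool.Agent.H308R2.CF.TGRED
import Pool.Agent.W659.FPw.Dens
import Pool.Agent.W659.FPw.Cls

/-!
# Classification of the reduced free powers of `C([0,1])` over arbitrary index sets

Idea.  Absorption (a flow moves one copy of `C([0,1])` almost into the algebra generated by two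
others) shows that all powers with finitely many, at least two, factors and the power with countably
many factors are isomorphic.  Uncountable powers are told apart by their density characters: the
canonical unitaries of different copies have distance at least one, and an algebra generated by `κ`
copies has a dense set of cardinality `max κ ℵ₀`.  The powers with `0` and `1` factors are `ℂ` and a
commutative algebra.
-/

set_option autoImplicit false

open scoped ComplexConjugate ComplexOrder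
open Cardinal

noncomputable section

namespace Pool.Agent.Results.MP_dd21a1_an.AllIndexSets

/-- `(A, φ)` with the embeddings `e j : D → A`, `j ∈ κ`, is the reduced free power (Avitzour,
Voiculescu) `(D, t)^{*κ}`: `φ` is a state which restricts to `t` on each copy, the copies are free
with respect to `φ` (alternating products of centred elements have expectation zero), they generate
`A` as a C*-algebra, and the GNS representation of `φ` is faithful. -/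
structure IsReducedFreePower {κ D : Type} [CStarAlgebra D] (t : D → ℂ) {A : Type} [CStarAlgebra A]
    (φ : A →ₗ[ℂ] ℂ) (e : κ → D →⋆ₐ[ℂ] A) : Prop where
  one : φ 1 = 1
  pos : ∀ x, 0 ≤ φ (star x * x)
  marginal : ∀ j d, φ (e j d) = t d
  free : ∀ w : List (κ × D), w ≠ [] → w.IsChain (fun a b => a.1 ≠ b.1) →
    (∀ z ∈ w, t z.2 = 0) → φ ((w.map fun z => e z.1 z.2).prod) = 0
  generating : (⨆ j, (e j).range).topologicalClosure = (⊤ : StarSubalgebra ℂ A)
  gns_faithful : ∀ a, (∀ x, φ (star (a * x) * (a * x)) = 0) → a = 0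

/-- The Lebesgue trace `f ↦ ∫₀¹ f` on `C([0,1])`. -/
def leb (f : C(unitInterval, ℂ)) : ℂ := ∫ x : unitInterval, f x

open Pool.Agent.H923R2
open Pool.Agent.H770R2.UL (TrSt)

theorem gen_eq {κ D A : Type} [CStarAlgebra D] [CStarAlgebra A] (e : κ → D →⋆ₐ[ℂ] A) :
    (⨆ j, (e j).range) = StarAlgebra.adjoin ℂ (⋃ j, Set.range (e j)) := by
  apply le_antisymm
  · refine iSup_le fun j => ?_
    rintro x ⟨y, rfl⟩
    exact StarAlgebra.subset_adjoin ℂ _ (Set.mem_iUnion.2 ⟨j, y, rfl⟩)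
  · refine StarAlgebra.adjoin_le ?_
    refine Set.iUnion_subset fun j => ?_
    rintro x ⟨y, rfl⟩
    exact (le_iSup (fun j => (e j).range) j) ⟨y, rfl⟩

theorem toRFP {κ D A : Type} [CStarAlgebra D] [CStarAlgebra A] {t : D → ℂ} {φ : A →ₗ[ℂ] ℂ}
    {e : κ → D →⋆ₐ[ℂ] A} (h : IsReducedFreePower t φ e) :
    FZ.IsRFP (J := κ) (fun _ => D) (fun _ => t) φ e where
  one := h.one
  nonneg := h.pos
  tr := h.marginal
  free := by
    intro w hw hc hz
    have := h.free (w.map fun z => (z.1, z.2)) (by simpa using hw)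
      (by rw [List.isChain_map]; exact hc)
      (by
        intro z hz'
        obtain ⟨y, hy, rfl⟩ := List.mem_map.1 hz'
        exact hz y hy)
    rwa [List.map_map] at this
  gen := by rw [← gen_eq]; exact h.generating
  gns := h.gns_faithful

theorem toRedFree {κ A : Type} [CStarAlgebra A] {φ : A →ₗ[ℂ] ℂ}
    {σ : κ → C(unitInterval, ℂ) →⋆ₐ[ℂ] A} (h : IsReducedFreePower leb φ σ) :
    Pool.Agent.H308R2.CF.RedFree φ σ where
  law := ⟨h.one, h.marginal, fun l hl hc hz => h.free l hl ((List.isChain_map _).1 hc) hz⟩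
  pos := h.pos
  gen := h.generating
  gns := fun a ha => h.gns_faithful a fun x => by
    have := ha x
    rwa [star_mul, mul_assoc, ← mul_assoc (star a), ← mul_assoc (star x)]

theorem ofRedFree {κ A : Type} [CStarAlgebra A] {φ : A →ₗ[ℂ] ℂ}
    {σ : κ → C(unitInterval, ℂ) →⋆ₐ[ℂ] A} (h : Pool.Agent.H308R2.CF.RedFree φ σ) :
    IsReducedFreePower leb φ σ where
  one := h.law.one
  pos := h.pos
  marginal := h.law.mar
  free := fun l hl hc hz => h.law.free l hl ((List.isChain_map _).2 hc) hz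
  generating := h.gen
  gns_faithful := fun a ha => h.gns a fun x => by
    have := ha x
    rwa [star_mul, mul_assoc, ← mul_assoc (star a), ← mul_assoc (star x)] at this

/-- the tracial description -/
theorem tracial {κ A : Type} [CStarAlgebra A] {φ : A →ₗ[ℂ] ℂ}
    {σ : κ → C(unitInterval, ℂ) →⋆ₐ[ℂ] A} (h : IsReducedFreePower leb φ σ) :
    ∃ φ' : TrSt A, φ'.toFun = φ ∧ Pool.Agent.H308R2.CF.FreePow φ' σ :=
  Pool.Agent.H308R2.CF.t_GTR Pool.Agent.H308R2.CF.t_GST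
    Pool.Agent.H308R2.CF.t_GMOM Pool.Agent.H308R2.CF.exi_all _ _ _ _ (toRedFree h)

/-- another description -/
theorem rfp {κ A : Type} [CStarAlgebra A] {φ : A →ₗ[ℂ] ℂ}
    {σ : κ → C(unitInterval, ℂ) →⋆ₐ[ℂ] A} (h : IsReducedFreePower leb φ σ) :
    FP.RFP (J := κ) (fun _ => C(unitInterval, ℂ)) (fun _ => FP.leb) φ σ :=
  FZ.T_GNSF.t_GNSF FZ.T_TRC.t_TRC κ _ _ A φ σ (fun _ x y => by rw [mul_comm]) (toRFP h)

/-- existence -/
theorem exist (κ : Type) : ∃ (A : Type) (_ : CStarAlgebra A) (φ : A →ₗ[ℂ] ℂ)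
    (e : κ → C(unitInterval, ℂ) →⋆ₐ[ℂ] A), IsReducedFreePower leb φ e := by
  obtain ⟨A, hA, φ, σ, h⟩ := Pool.Agent.H308R2.CF.exi_all κ
  exact ⟨A, hA, φ.toFun, σ, ofRedFree (Pool.Agent.H308R2.CF.t_GRED _ _ _ _ h)⟩

/-- change of the index set -/
theorem reindex {κ κ' D A : Type} [CStarAlgebra D] [CStarAlgebra A] {t : D → ℂ} {φ : A →ₗ[ℂ] ℂ}
    {e : κ' → D →⋆ₐ[ℂ] A} (h : IsReducedFreePower t φ e) (ε : κ ≃ κ') :
    IsReducedFreePower t φ (fun j => e (ε j)) where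
  one := h.one
  pos := h.pos
  marginal := fun j d => h.marginal (ε j) d
  free := by
    intro w hw hc hz
    have := h.free (w.map fun z => (ε z.1, z.2)) (by simpa using hw)
      (by
        rw [List.isChain_map]
        exact hc.imp fun a b hab h1 => hab (ε.injective h1))
      (by
        intro z hz'
        obtain ⟨y, hy, rfl⟩ := List.mem_map.1 hz'
        exact hz y hy)
    rwa [List.map_map] at this
  generating := by
    rw [← h.generating]
    congr 1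
    exact ε.iSup_comp (g := fun j => (e j).range)
  gns_faithful := h.gns_faithful

/-- state preserving isomorphism -/
def StateIso {A B : Type} [CStarAlgebra A] [CStarAlgebra B] (φ : A →ₗ[ℂ] ℂ) (ψ : B →ₗ[ℂ] ℂ) :
    Prop := ∃ Φ : A ≃⋆ₐ[ℂ] B, ∀ a, ψ (Φ a) = φ a

theorem StateIso.symm {A B : Type} [CStarAlgebra A] [CStarAlgebra B] {φ : A →ₗ[ℂ] ℂ}
    {ψ : B →ₗ[ℂ] ℂ} (h : StateIso φ ψ) : StateIso ψ φ := by
  obtain ⟨Φ, h⟩ := h
  exact ⟨Φ.symm, fun b => by rw [← h, StarAlgEquiv.apply_symm_apply]⟩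

theorem StateIso.trans {A B C : Type} [CStarAlgebra A] [CStarAlgebra B] [CStarAlgebra C]
    {φ : A →ₗ[ℂ] ℂ} {ψ : B →ₗ[ℂ] ℂ} {χ : C →ₗ[ℂ] ℂ} (h : StateIso φ ψ) (h' : StateIso ψ χ) :
    StateIso φ χ := by
  obtain ⟨Φ, h⟩ := h
  obtain ⟨Ψ, h'⟩ := h'
  exact ⟨Φ.trans Ψ, fun b => by rw [StarAlgEquiv.trans_apply, h', h]⟩

/-- equal cardinalities -/
theorem iso_of_equiv {κ κ' A B : Type} [CStarAlgebra A] [CStarAlgebra B] {φ : A →ₗ[ℂ] ℂ}
    {ψ : B →ₗ[ℂ] ℂ} {e : κ → C(unitInterval, ℂ) →⋆ₐ[ℂ] A} {e' : κ' → C(unitInterval, ℂ) →⋆ₐ[ℂ] B}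
    (h : IsReducedFreePower leb φ e) (h' : IsReducedFreePower leb ψ e') (ε : κ ≃ κ') :
    StateIso φ ψ := by
  obtain ⟨φ', rfl, h1⟩ := tracial h
  obtain ⟨ψ', rfl, h2⟩ := tracial (reindex h' ε)
  exact Pool.Agent.H308R2.CF.eqv_tr Pool.Agent.H308R2.CF.uniq_all φ' ψ' e _
    (Pool.Agent.H308R2.CF.t_FREE1 _ _ _ _ h1) (Pool.Agent.H308R2.CF.t_FREE1 _ _ _ _ h2)

/-- the powers with countably many, at least two, factors -/
theorem iso_countable {κ A W : Type} [CStarAlgebra A] [CStarAlgebra W] {φ : A →ₗ[ℂ] ℂ}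
    {ω : W →ₗ[ℂ] ℂ} {e : κ → C(unitInterval, ℂ) →⋆ₐ[ℂ] A} {g : ℕ → C(unitInterval, ℂ) →⋆ₐ[ℂ] W}
    (h : IsReducedFreePower leb φ e) (hW : IsReducedFreePower leb ω g) (h2 : 2 ≤ #κ)
    (h3 : #κ ≤ ℵ₀) : StateIso φ ω := by
  rcases finite_or_infinite κ with hfin | hinf
  · obtain ⟨l, ⟨ε⟩⟩ := Finite.exists_equiv_fin κ
    have hl : 2 ≤ l := by
      have h4 : #κ = l := by rw [Cardinal.mk_congr ε, Cardinal.mk_fin]
      rw [h4] at h2
      exact_mod_cast h2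
    obtain ⟨B, iB, ψ, f, hB⟩ := exist (Fin 2)
    have s1 : StateIso φ ψ := by
      obtain ⟨φ', rfl, h1⟩ := tracial (reindex h ε.symm)
      obtain ⟨ψ', rfl, h2⟩ := tracial hB
      exact Pool.Agent.H308R2.CF.main_all l 2 hl le_rfl A B φ' ψ' _ _ h1 h2
    refine s1.trans ?_
    exact Pool.Agent.H898R3.Mix.powC FZ.All.absi FZ.T_SEPW.t_SEPW FZ.T_SPL.t_SPL FP.All.uniq
      W ω g (rfp hW) B ψ f (rfp hB)
  · have : Countable κ := Cardinal.mk_le_aleph0_iff.1 h3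
    obtain ⟨ε⟩ := nonempty_equiv_of_countable (α := κ) (β := ℕ)
    exact iso_of_equiv h hW ε

/-- separability of `C([0,1])` bounds the density character -/
theorem card_le {κ κ' A B : Type} [CStarAlgebra A] [CStarAlgebra B] {φ : A →ₗ[ℂ] ℂ}
    {ψ : B →ₗ[ℂ] ℂ} {e : κ → C(unitInterval, ℂ) →⋆ₐ[ℂ] A} {e' : κ' → C(unitInterval, ℂ) →⋆ₐ[ℂ] B}
    (h : IsReducedFreePower leb φ e) (h' : IsReducedFreePower leb ψ e') (Φ : A ≃⋆ₐ[ℂ] B) :
    #κ ≤ max #κ' ℵ₀ := by
  obtain ⟨S, hS, hc⟩ := Pool.Agent.W659.FPw.exists_dense e' h'.generating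
  obtain ⟨φ', rfl, h1⟩ := tracial h
  have h2 := Pool.Agent.H308R2.CF.t_FREE1 _ _ _ _ h1
  have hcont : Continuous Φ.symm :=
    AddMonoidHomClass.continuous_of_bound (Φ.symm) 1 fun x => by
      rw [one_mul]
      exact (NonUnitalStarAlgHom.norm_apply_le (Φ.symm : B →⋆ₐ[ℂ] A) x)
  have hd : Dense (Φ.symm '' S) := Φ.symm.surjective.denseRange.dense_image hcont hS
  exact ((Pool.Agent.W659.FPw.card_le_dense h2 _ hd).trans mk_image_le).trans hc

/-- few factors -/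
theorem sub_of {κ κ' A B : Type} [CStarAlgebra A] [CStarAlgebra B] {φ : A →ₗ[ℂ] ℂ}
    {ψ : B →ₗ[ℂ] ℂ} {e : κ → C(unitInterval, ℂ) →⋆ₐ[ℂ] A} {e' : κ' → C(unitInterval, ℂ) →⋆ₐ[ℂ] B}
    (h : IsReducedFreePower leb φ e) (h' : IsReducedFreePower leb ψ e') (Φ : A ≃⋆ₐ[ℂ] B)
    (hs : Subsingleton κ) : Subsingleton κ' := by
  obtain ⟨φ', rfl, h1⟩ := tracial h
  obtain ⟨ψ', rfl, h1'⟩ := tracial h'
  have h2 := Pool.Agent.H308R2.CF.t_FREE1 _ _ _ _ h1
  have h2' := Pool.Agent.H308R2.CF.t_FREE1 _ _ _ _ h1'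
  refine ⟨fun i j => ?_⟩
  by_contra hij
  refine Pool.Agent.W659.FPw.not_comm h2' hij fun x y => ?_
  have h3 := Pool.Agent.W659.FPw.comm_of_subsingleton h2 (Φ.symm x) (Φ.symm y)
  have hinj : Function.Injective Φ.symm := EquivLike.injective Φ.symm
  refine hinj ?_
  rw [map_mul, map_mul, h3]

/-- no factor -/
theorem emp_of {κ κ' A B : Type} [CStarAlgebra A] [CStarAlgebra B] {φ : A →ₗ[ℂ] ℂ}
    {ψ : B →ₗ[ℂ] ℂ} {e : κ → C(unitInterval, ℂ) →⋆ₐ[ℂ] A} {e' : κ' → C(unitInterval, ℂ) →⋆ₐ[ℂ] B}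
    (h : IsReducedFreePower leb φ e) (h' : IsReducedFreePower leb ψ e') (Φ : A ≃⋆ₐ[ℂ] B)
    (hs : IsEmpty κ) : IsEmpty κ' := by
  obtain ⟨φ', rfl, h1⟩ := tracial h
  obtain ⟨ψ', rfl, h1'⟩ := tracial h'
  have h2 := Pool.Agent.H308R2.CF.t_FREE1 _ _ _ _ h1
  have h2' := Pool.Agent.H308R2.CF.t_FREE1 _ _ _ _ h1'
  refine ⟨fun i => ?_⟩
  refine Pool.Agent.W659.FPw.not_scalar h2' i fun x => ?_
  obtain ⟨c, hc⟩ := Pool.Agent.W659.FPw.scalar_of_empty h2 (Φ.symm x)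
  refine ⟨c, ?_⟩
  have hinj : Function.Injective Φ.symm := EquivLike.injective Φ.symm
  refine hinj ?_
  rw [hc, map_smul, map_one]

/-- the cardinalities of the index sets of isomorphic powers -/
theorem card_of_iso {κ κ' A B : Type} [CStarAlgebra A] [CStarAlgebra B] {φ : A →ₗ[ℂ] ℂ}
    {ψ : B →ₗ[ℂ] ℂ} {e : κ → C(unitInterval, ℂ) →⋆ₐ[ℂ] A} {e' : κ' → C(unitInterval, ℂ) →⋆ₐ[ℂ] B}
    (h : IsReducedFreePower leb φ e) (h' : IsReducedFreePower leb ψ e') (Φ : A ≃⋆ₐ[ℂ] B) :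
    #κ = #κ' ∨ (2 ≤ #κ ∧ #κ ≤ ℵ₀ ∧ 2 ≤ #κ' ∧ #κ' ≤ ℵ₀) := by
  have c1 := card_le h h' Φ
  have c2 := card_le h' h Φ.symm
  by_cases hκ : #κ ≤ ℵ₀
  · rw [max_eq_right hκ] at c2
    by_cases hs : Subsingleton κ
    · left
      have hs' := sub_of h h' Φ hs
      by_cases he : IsEmpty κ
      · have he' := emp_of h h' Φ he
        rw [mk_eq_zero κ, mk_eq_zero κ']
      · have he' : ¬ IsEmpty κ' := fun h3 => he (emp_of h' h Φ.symm h3)
        rw [not_isEmpty_iff] at he he'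
        obtain ⟨i⟩ := he
        obtain ⟨j⟩ := he'
        exact Cardinal.mk_congr ⟨fun _ => j, fun _ => i, fun _ => Subsingleton.elim _ _,
          fun _ => Subsingleton.elim _ _⟩
    · right
      have hs' : ¬ Subsingleton κ' := fun h3 => hs (sub_of h' h Φ.symm h3)
      rw [not_subsingleton_iff_nontrivial] at hs hs'
      exact ⟨two_le_iff_one_lt.2 (one_lt_iff_nontrivial.2 hs), hκ,
        two_le_iff_one_lt.2 (one_lt_iff_nontrivial.2 hs'), c2⟩
  · left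
    rw [not_le] at hκ
    rw [max_eq_left hκ.le] at c2
    have hκ' : ℵ₀ < #κ' := by
      by_contra h3
      rw [not_lt] at h3
      rw [max_eq_right h3] at c1
      exact absurd c1 (not_le.2 hκ)
    rw [max_eq_left hκ'.le] at c1
    exact le_antisymm c1 c2

/-- **Theorem.** The reduced free power `(C([0,1]), leb)^{*κ}` exists for every index set `κ`.
Two reduced free powers over index sets `κ` and `κ'` are *-isomorphic if and only if `κ` and `κ'`
have the same cardinality or both have at least two and at most countably many elements.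
If they are *-isomorphic, then there is a *-isomorphism which carries the free product state to the
free product state. -/
theorem result :
    (∀ κ : Type, ∃ (A : Type) (_ : CStarAlgebra A) (φ : A →ₗ[ℂ] ℂ)
      (e : κ → C(unitInterval, ℂ) →⋆ₐ[ℂ] A), IsReducedFreePower leb φ e) ∧
    ∀ (κ κ' : Type) (A B : Type) [CStarAlgebra A] [CStarAlgebra B]
      (φ : A →ₗ[ℂ] ℂ) (ψ : B →ₗ[ℂ] ℂ) (e : κ → C(unitInterval, ℂ) →⋆ₐ[ℂ] A)
      (e' : κ' → C(unitInterval, ℂ) →⋆ₐ[ℂ] B),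
      IsReducedFreePower leb φ e → IsReducedFreePower leb ψ e' →
      (Nonempty (A ≃⋆ₐ[ℂ] B) ↔ (#κ = #κ' ∨ (2 ≤ #κ ∧ #κ ≤ ℵ₀ ∧ 2 ≤ #κ' ∧ #κ' ≤ ℵ₀))) ∧
      (Nonempty (A ≃⋆ₐ[ℂ] B) → ∃ Φ : A ≃⋆ₐ[ℂ] B, ∀ a, ψ (Φ a) = φ a) := by
  refine ⟨exist, ?_⟩
  intro κ κ' A B _ _ φ ψ e e' h h'
  have key : (#κ = #κ' ∨ (2 ≤ #κ ∧ #κ ≤ ℵ₀ ∧ 2 ≤ #κ' ∧ #κ' ≤ ℵ₀)) → StateIso φ ψ := by
    rintro (h1 | ⟨h1, h2, h3, h4⟩)
    · obtain ⟨ε⟩ := Cardinal.eq.1 h1
      exact iso_of_equiv h h' ε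
    · obtain ⟨W, iW, ω, g, hW⟩ := exist ℕ
      exact (iso_countable h hW h1 h2).trans (iso_countable h' hW h3 h4).symm
  refine ⟨⟨fun ⟨Φ⟩ => card_of_iso h h' Φ, fun h1 => ?_⟩, fun ⟨Φ⟩ => key (card_of_iso h h' Φ)⟩
  obtain ⟨Φ, -⟩ := key h1
  exact ⟨Φ⟩

end Pool.Agent.Results.MP_dd21a1_an.AllIndexSets
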